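import Pool.Agent.P8H10.TW.Stm

/-!
# Project TW (helper10), package EIS (helper43)
-/

set_option autoImplicit false

open Polynomial

namespace Pool.Agent.P8H43.TW

open Pool.Agent.P8H10.TW

theorem irr (p : ℕ) [Fact p.Prime] (N : ℕ) (hN : N ≠ 0) :
    Irreducible (X ^ N - C (p : ℤ_[p]) : ℤ_[p][X]) := by
  have hp : Prime (p : ℤ_[p]) := PadicInt.prime_p
  have hP : (Ideal.span {(p : ℤ_[p])}).IsPrime := (Ideal.span_singleton_prime hp.ne_zero).2 hp
  have hm : (X ^ N - C (p : ℤ_[p]) : ℤ_[p][X]).Monic := monic_X_pow_sub_C _ hN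
  have hdeg : (X ^ N - C (p : ℤ_[p]) : ℤ_[p][X]).degree = N :=
    degree_X_pow_sub_C (Nat.pos_of_ne_zero hN) _
  refine irreducible_of_eisenstein_criterion hP ?_ ?_ ?_ ?_ hm.isPrimitive
  · rw [hm.leadingCoeff]
    intro h
    exact hP.ne_top ((Ideal.eq_top_iff_one _).2 h)
  · intro n hn
    rw [hdeg, Nat.cast_lt] at hn
    rw [coeff_sub, coeff_X_pow, if_neg hn.ne, coeff_C, zero_sub, Ideal.mem_span_singleton]
    split_ifs with h
    · exact (dvd_refl _).neg_right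
    · simp
  · rw [hdeg]
    exact_mod_cast Nat.pos_of_ne_zero hN
  · rw [coeff_sub, coeff_X_pow, if_neg hN.symm, coeff_C_zero, zero_sub,
      Ideal.span_singleton_pow, Ideal.mem_span_singleton, dvd_neg]
    intro h
    have h1 : (p : ℤ_[p]) * p ∣ p * 1 := by rwa [mul_one, ← sq]
    exact hp.not_isUnit (isUnit_of_dvd_one ((mul_dvd_mul_iff_left hp.ne_zero).1 h1))

theorem eis : S_EIS := by
  intro p _ N hN θ θ' h h'
  have hirr := (Monic.irreducible_iff_irreducible_map_fraction_map (K := ℚ_[p])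
    (monic_X_pow_sub_C (p : ℤ_[p]) hN)).1 (irr p N hN)
  have e : (X ^ N - C (p : ℤ_[p]) : ℤ_[p][X]).map (algebraMap ℤ_[p] ℚ_[p]) =
      X ^ N - C (p : ℚ_[p]) := by
    rw [Polynomial.map_sub, Polynomial.map_pow, map_X, map_C, map_natCast]
  rw [e] at hirr
  have hm : (X ^ N - C (p : ℚ_[p]) : ℚ_[p][X]).Monic := monic_X_pow_sub_C _ hN
  have hroot : ∀ t : PadicAlgCl p, t ^ N = (p : PadicAlgCl p) →
      aeval t (X ^ N - C (p : ℚ_[p]) : ℚ_[p][X]) = 0 := by
    intro t ht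
    rw [map_sub, map_pow, aeval_X, aeval_C, map_natCast, ht, sub_self]
  have h1 := minpoly.eq_of_irreducible_of_monic hirr (hroot θ h) hm
  have h2 := minpoly.eq_of_irreducible_of_monic hirr (hroot θ' h') hm
  have hc : IsConjRoot ℚ_[p] θ' θ := h2.symm.trans h1
  obtain ⟨σ, hσ⟩ := isConjRoot_iff_exists_algEquiv.1 hc
  exact ⟨σ, hσ⟩

end Pool.Agent.P8H43.TW
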